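import Mathlib
import Pool.Agent.H3.SlideG

set_option autoImplicit false

namespace Pool.Agent.Results.MP_89d95d_co.NoSeed

open Pool.Agent.H3.SlideG

theorem result : IReal cubeMinus ∧ ¬ WReal cubeMinus :=
  ⟨cube_ireal, fun h => cube_not_alpha (areal_of_wreal h)⟩

end Pool.Agent.Results.MP_89d95d_co.NoSeed
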